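import Pool.Agent.Y159.TQ.Pre

set_option autoImplicit false

/-! Moments of the torsion of class groups of quadratic fields in thin families. -/

namespace Pool.Agent.Y159.TQ

open NumberField Finset Pool.Agent.TH869.EVF Pool.Agent.Y159.QS
open scoped Classical

section Poly

open Polynomial

/-- a quadratic polynomial of nonzero discriminant is not a constant times a square -/
theorem poly_ne (a b c : ℤ) (ha : a ≠ 0) (hΔ : b ^ 2 - 4 * a * c ≠ 0) (q : ℚ) (g : ℚ[X]) :
    (C a * X ^ 2 + C b * X + C c : ℤ[X]).map (Int.castRingHom ℚ) ≠ C q * g ^ 2 := by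
  intro h
  have e : (C a * X ^ 2 + C b * X + C c : ℤ[X]).map (Int.castRingHom ℚ) =
      C (a : ℚ) * X ^ 2 + C (b : ℚ) * X + C (c : ℚ) := by
    simp
  rw [e] at h
  have haq : (a : ℚ) ≠ 0 := by exact_mod_cast ha
  have hd : (C (a : ℚ) * X ^ 2 + C (b : ℚ) * X + C (c : ℚ)).natDegree = 2 := natDegree_quadratic haq
  have hq : q ≠ 0 := by
    rintro rfl
    rw [h, map_zero, zero_mul, natDegree_zero] at hd
    omega
  have hg : g.natDegree = 1 := by
    rw [h, natDegree_C_mul hq, natDegree_pow] at hd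
    omega
  have hg0 : g ≠ 0 := by
    rintro rfl
    rw [natDegree_zero] at hg
    omega
  obtain ⟨s, hs⟩ := exists_root_of_degree_eq_one (by
    rw [degree_eq_natDegree hg0, hg]; rfl : degree g = 1)
  have hs' : g.eval s = 0 := hs
  have h1 : (a : ℚ) * s ^ 2 + b * s + c = 0 := by
    have := congrArg (eval s) h
    simp only [eval_add, eval_mul, eval_C, eval_pow, eval_X, hs'] at this
    linarith [this]
  have h2 : 2 * (a : ℚ) * s + b = 0 := by
    have := congrArg (fun p => eval s (derivative p)) h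
    simp only [derivative_add, derivative_mul, derivative_C, derivative_X,
      derivative_pow, eval_add, eval_mul, eval_C, eval_pow, eval_X, hs'] at this
    norm_num at this
    linarith [this]
  apply hΔ
  have h3 : ((b ^ 2 - 4 * a * c : ℤ) : ℚ) = 0 := by
    push_cast
    have : (b : ℚ) ^ 2 - 4 * a * c = (2 * a * s + b) ^ 2 - 4 * a * (a * s ^ 2 + b * s + c) := by ring
    rw [this, h1, h2]; ring
  exact_mod_cast h3

end Poly

theorem rpow_one_add {X e : ℝ} (hX : 1 ≤ X) (r : ℕ) :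
    (X ^ (1 + e)) ^ r = X ^ r * X ^ (r * e) := by
  have hX0 : 0 < X := by linarith
  rw [Real.rpow_add hX0, mul_pow, Real.rpow_one, ← Real.rpow_natCast (X ^ e) r,
    ← Real.rpow_mul hX0.le, mul_comm e]

/-- windows -/
theorem bad_window {N H M c Y : ℝ} (hM : 0 ≤ M) (hc : 0 ≤ c) (hH : 1 ≤ H) (P : ℤ → Prop)
    (h : ∀ (n : ℤ) (H : ℝ), 1 ≤ H → ∀ S : Finset ℤ, (∀ t ∈ S, (n : ℝ) ≤ t ∧ (t : ℝ) ≤ n + H) →
      ((S.filter P).card : ℝ) ≤ c * (H * M + Y)) (S : Finset ℤ)
    (hS : ∀ t ∈ S, N ≤ |(t : ℝ)| ∧ |(t : ℝ)| ≤ N + H) :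
    ((S.filter P).card : ℝ) ≤ 2 * (c * (2 * H * M + Y)) := by
  have h1 : S.filter P ⊆ (S.filter (fun t => 0 ≤ t)).filter P ∪ (S.filter (fun t => t < 0)).filter P := by
    intro t ht
    rw [mem_filter] at ht
    rw [mem_union, mem_filter, mem_filter, mem_filter, mem_filter]
    rcases le_or_gt 0 t with h0 | h0
    · exact Or.inl ⟨⟨ht.1, h0⟩, ht.2⟩
    · exact Or.inr ⟨⟨ht.1, h0⟩, ht.2⟩
  have h2 := (card_le_card h1).trans (card_union_le _ _)
  have hf := Int.floor_le N
  have hf' := Int.lt_floor_add_one N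
  have hg := Int.floor_le (-N - H)
  have hg' := Int.lt_floor_add_one (-N - H)
  have hle : H + 1 ≤ 2 * H := by linarith
  have h3 : (((S.filter (fun t => 0 ≤ t)).filter P).card : ℝ) ≤ c * (2 * H * M + Y) := by
    refine (h ⌊N⌋ (H + 1) (by linarith) (S.filter (fun t => 0 ≤ t)) ?_).trans ?_
    · intro t ht
      rw [mem_filter] at ht
      obtain ⟨h4, h5⟩ := hS t ht.1
      have h0 : (0 : ℝ) ≤ t := by exact_mod_cast ht.2
      rw [abs_of_nonneg h0] at h4 h5
      exact ⟨by linarith, by linarith⟩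
    · gcongr
  have h4 : (((S.filter (fun t => t < 0)).filter P).card : ℝ) ≤ c * (2 * H * M + Y) := by
    refine (h ⌊-N - H⌋ (H + 1) (by linarith) (S.filter (fun t => t < 0)) ?_).trans ?_
    · intro t ht
      rw [mem_filter] at ht
      obtain ⟨h4, h5⟩ := hS t ht.1
      have h0 : (t : ℝ) < 0 := by exact_mod_cast ht.2
      rw [abs_of_neg h0] at h4 h5
      exact ⟨by linarith, by linarith⟩
    · gcongr
  have h5 : ((S.filter P).card : ℝ) ≤ (((S.filter (fun t => 0 ≤ t)).filter P).card : ℝ) +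
      (((S.filter (fun t => t < 0)).filter P).card : ℝ) := by exact_mod_cast h2
  linarith

theorem short_t (hrep : TaskRep) (hsup : TaskSup) (a b c : ℤ) (ha : a ≠ 0)
    (hΔ : b ^ 2 - 4 * a * c ≠ 0) (l r : ℕ) (hl : 1 ≤ l) (hr : 1 ≤ r) (ε : ℝ) (hε : 0 < ε) :
    ∃ C : ℝ, 0 < C ∧
    ∀ N H y : ℝ, 1 ≤ H → H ≤ N → 0 < y → y ^ (l + r) = H * N → y ^ (3 * r) ≤ H →
    ∀ (S : Finset ℤ) (K : ℤ → Type) [∀ t, Field (K t)] [∀ t, NumberField (K t)],
    (∀ t ∈ S, (N ≤ |(t : ℝ)| ∧ |(t : ℝ)| ≤ N + H) ∧ Module.finrank ℚ (K t) = 2 ∧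
      NumberField.discr (K t) = a * t ^ 2 + b * t + c) →
    ∑ t ∈ S, (Nat.card {x : ClassGroup (𝓞 (K t)) // x ^ l = 1} : ℝ) ^ r ≤
      C * N ^ ε * (N ^ r * (H / y ^ r)) := by
  have hlr : (1 : ℝ) ≤ l := by exact_mod_cast hl
  have hrr : (1 : ℝ) ≤ r := by exact_mod_cast hr
  set κ : ℝ := 1 / ((l : ℝ) + r) with hκ
  have hκ0 : 0 < κ := by rw [hκ]; positivity
  set ε1 : ℝ := min (ε / (6 * r)) (1 / 2) with hε1
  have hε10 : 0 < ε1 := lt_min (by positivity) (by norm_num)
  have hε1h : ε1 ≤ 1 / 2 := min_le_right _ _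
  have hε1r : r * (2 * ε1) ≤ ε / 3 := by
    have h1 : ε1 ≤ ε / (6 * r) := min_le_left _ _
    rw [le_div_iff₀ (by positivity)] at h1
    linarith
  set ε2 : ℝ := ε / (3 * l) with hε2
  have hε20 : 0 < ε2 := by positivity
  have hε2l : l * ε2 = ε / 3 := by rw [hε2]; field_simp
  obtain ⟨C0, hC00, hC0⟩ := single ε1 hε10
  obtain ⟨C3, hC30, hC3⟩ := sum_ECt hrep a b c ha hΔ 3 (by norm_num) l hl ε2 hε20
  obtain ⟨C4, Y0, hC40, hY01, hC4⟩ := hsup _ (fun q g => poly_ne a b c ha hΔ q g) r hr ε1 hε10 hε1h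
  have hev : ∀ t : ℤ, (Polynomial.C a * Polynomial.X ^ 2 + Polynomial.C b * Polynomial.X +
      Polynomial.C c : Polynomial ℤ).eval t = a * t ^ 2 + b * t + c := by
    intro t
    simp
  simp only [hev] at hC4
  set G0 : ℝ := |(a : ℝ)| + |(b : ℝ)| + |(c : ℝ)| with hG0
  have hG01 : 1 ≤ G0 := by
    have ha1 : (1 : ℝ) ≤ |(a : ℝ)| := by exact_mod_cast Int.one_le_abs ha
    have := abs_nonneg (b : ℝ)
    have := abs_nonneg (c : ℝ)
    linarith
  set G : ℝ := 4 * G0 with hG
  have hG1 : 1 ≤ G := by linarith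
  have hG0' : 0 < G := by linarith
  set Δ3 : ℝ := 2 * (((b ^ 2 - 4 * a * c).natAbs : ℝ) + 3) with hΔ3
  have hΔ30 : 0 ≤ Δ3 := by positivity
  obtain ⟨X2, hX21, hX2⟩ := Pool.Agent.Y159.PT.large_N (1 / Y0) (8 * Real.log G + Δ3) 0 16 (κ / 2) κ
    (by positivity) (by positivity) hκ0
  set X1 : ℝ := max X2 (2 * (|(b : ℝ)| + |(c : ℝ)|) + 1) with hX1
  have hX11 : 1 ≤ X1 := hX21.trans (le_max_left _ _)
  have hCbig : 0 < (1024 * (C0 * G)) ^ r * 2 ^ (r - 1) * (4 + C3 + 6 * C4) := by positivity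
  have hCsm : 0 < 4 * (C0 * G) ^ r * X1 ^ r := by positivity
  refine ⟨(1024 * (C0 * G)) ^ r * 2 ^ (r - 1) * (4 + C3 + 6 * C4) + 4 * (C0 * G) ^ r * X1 ^ r,
    by positivity, ?_⟩
  intro N H y hH hHN hy0 hy hy3 S K _ _ hS
  obtain ⟨hy1, hyN, hNy, hyl, hy2⟩ := y_facts_t hl hr hH hHN hy0 hy hy3
  have hN : 1 ≤ N := hH.trans hHN
  have hN0 : 0 < N := by linarith
  have hH0 : 0 < H := by linarith
  have hyr : 0 < y ^ r := by positivity
  set V : ℝ := H / y ^ r with hV
  have hV0 : 0 < V := by positivity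
  set F : ℝ := N ^ (ε / 3) with hF
  have hF1 : 1 ≤ F := Real.one_le_rpow hN (by positivity)
  have hFε : F ^ 2 ≤ N ^ ε := by
    rw [hF, ← Real.rpow_natCast, ← Real.rpow_mul hN0.le]
    apply Real.rpow_le_rpow_of_exponent_le hN
    push_cast; linarith
  have hFF : F ≤ N ^ ε := le_trans (by nlinarith) hFε
  set B : ℝ := C0 * (G * N ^ (1 + 2 * ε1)) with hB
  have hB0 : 0 < B := by positivity
  have hBr : (N ^ (1 + 2 * ε1)) ^ r ≤ N ^ r * F := by
    rw [rpow_one_add hN]
    have : N ^ (r * (2 * ε1)) ≤ F := Real.rpow_le_rpow_of_exponent_le hN hε1r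
    gcongr
  have hup : ∀ t ∈ S, |((a * t ^ 2 + b * t + c : ℤ) : ℝ)| ≤ G * N ^ 2 := by
    intro t ht
    have h1 := (hS t ht).1
    refine (quad_upper a b c t (hN.trans h1.1)).trans ?_
    have h2 : |(t : ℝ)| ≤ 2 * N := by linarith
    calc G0 * |(t : ℝ)| ^ 2 ≤ G0 * (2 * N) ^ 2 := by gcongr
      _ = G * N ^ 2 := by rw [hG]; ring
  have hDB : ∀ t ∈ S, C0 * |((a * t ^ 2 + b * t + c : ℤ) : ℝ)| ^ (1 / 2 + ε1) ≤ B := by
    intro t ht
    have h2 : |((a * t ^ 2 + b * t + c : ℤ) : ℝ)| ^ (1 / 2 + ε1) ≤ G * N ^ (1 + 2 * ε1) := by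
      calc |((a * t ^ 2 + b * t + c : ℤ) : ℝ)| ^ (1 / 2 + ε1) ≤ (G * N ^ 2) ^ (1 / 2 + ε1) :=
            Real.rpow_le_rpow (abs_nonneg _) (hup t ht) (by positivity)
        _ = G ^ (1 / 2 + ε1) * (N ^ 2) ^ (1 / 2 + ε1) := Real.mul_rpow hG0'.le (by positivity)
        _ = G ^ (1 / 2 + ε1) * N ^ (1 + 2 * ε1) := by
            congr 1
            rw [← Real.rpow_natCast N 2, ← Real.rpow_mul hN0.le]
            congr 1
            push_cast; ring
        _ ≤ G ^ (1 : ℝ) * N ^ (1 + 2 * ε1) := by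
            gcongr
            linarith
        _ = _ := by rw [Real.rpow_one]
    rw [hB]
    gcongr
  set T : ℤ → ℝ := fun t => (Nat.card {x : ClassGroup (𝓞 (K t)) // x ^ l = 1} : ℝ) with hT
  have hT0 : ∀ t, 0 ≤ T t := fun t => Nat.cast_nonneg _
  have hTB : ∀ t ∈ S, T t ≤ B := by
    intro t ht
    have h1 := (hC0 l hl (K t) (hS t ht).2.1 0 ∅ (by simp)).1
    rw [(hS t ht).2.2] at h1
    exact h1.trans (hDB t ht)
  have hScard : (S.card : ℝ) ≤ 4 * H := card_window hH S (fun t ht => (hS t ht).1)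
  rcases lt_or_ge N X1 with hXX | hXX
  · -- small `N`
    have h1 : ∑ t ∈ S, T t ^ r ≤ 4 * H * B ^ r := by
      calc ∑ t ∈ S, T t ^ r ≤ ∑ t ∈ S, B ^ r :=
            Finset.sum_le_sum fun t ht => pow_le_pow_left₀ (hT0 t) (hTB t ht) r
        _ = S.card * B ^ r := by rw [sum_const, nsmul_eq_mul]
        _ ≤ _ := by gcongr
    refine h1.trans ?_
    have hyX1 : y ^ r ≤ X1 ^ r := by
      gcongr; linarith
    have h2 : H = y ^ r * V := by rw [hV]; field_simp
    have h3 : B ^ r = (C0 * G) ^ r * (N ^ (1 + 2 * ε1)) ^ r := by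
      rw [hB, ← mul_pow]; congr 1; ring
    calc 4 * H * B ^ r = 4 * (y ^ r * V) * ((C0 * G) ^ r * (N ^ (1 + 2 * ε1)) ^ r) := by
          rw [h3, ← h2]
      _ ≤ 4 * (X1 ^ r * V) * ((C0 * G) ^ r * (N ^ r * F)) := by gcongr
      _ = 4 * (C0 * G) ^ r * X1 ^ r * F * (N ^ r * V) := by ring
      _ ≤ _ := by
          have hsr : 0 ≤ N ^ r * V := by positivity
          apply mul_le_mul_of_nonneg_right _ hsr
          apply mul_le_mul _ hFF (by positivity) (by positivity)
          linarith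
  · -- large `N`
    obtain ⟨e1, e2⟩ := hX2 N ((le_max_left _ _).trans hXX)
    have hbc : 2 * (|(b : ℝ)| + |(c : ℝ)|) + 1 ≤ N := (le_max_right _ _).trans hXX
    have hYy : Y0 ≤ y := by
      have h1 : Y0 ≤ N ^ κ := by
        rw [Real.rpow_neg hN0.le, inv_eq_one_div] at e1
        exact (one_div_le_one_div (by positivity) (by linarith)).mp e1
      exact h1.trans hNy
    obtain ⟨z, hzy, hz, hbad⟩ := hC4 y hYy
    set N0 : ℝ := ((Qz z).card : ℝ) with hN0d
    have hN01 : 1 ≤ N0 := by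
      refine le_trans ?_ hz
      exact Real.one_le_rpow hy1 (by linarith)
    have hN0p : 0 < N0 := by linarith
    have hlogN : 8 * Real.log G + Δ3 + 16 * Real.log N ≤ N0 := by
      have h1 : (1 / Y0) * N ^ (κ / 2) ≤ N ^ (κ / 2) := by
        have : 1 / Y0 ≤ 1 := by rw [div_le_one (by linarith)]; exact hY01
        have hp : 0 < N ^ (κ / 2) := Real.rpow_pos_of_pos hN0 _
        nlinarith
      have h2 : N ^ (κ / 2) ≤ y ^ (1 - ε1) := by
        calc N ^ (κ / 2) = (N ^ κ) ^ ((1 : ℝ) / 2) := by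
              rw [← Real.rpow_mul hN0.le]; congr 1; ring
          _ ≤ y ^ ((1 : ℝ) / 2) := Real.rpow_le_rpow (by positivity) hNy (by norm_num)
          _ ≤ y ^ (1 - ε1) := Real.rpow_le_rpow_of_exponent_le hy1 (by linarith)
      linarith
    have hlogN0 : 0 ≤ Real.log N := Real.log_nonneg hN
    have hlogG0 : 0 ≤ Real.log G := Real.log_nonneg hG1
    have hQz : (Qz z).card ≤ z := by
      have h1 : Qz z ⊆ Finset.Icc 1 z := by
        intro p hp
        obtain ⟨hpp, -, hpz⟩ := mem_Qz hp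
        exact Finset.mem_Icc.mpr ⟨hpp.one_lt.le, by exact_mod_cast hpz⟩
      have h2 := card_le_card h1
      rw [Nat.card_Icc] at h2
      omega
    have hzD : 2 * ((b ^ 2 - 4 * a * c).natAbs + 3) ≤ z := by
      have h1 : Δ3 ≤ (z : ℝ) := by
        have h2 : N0 ≤ z := by rw [hN0d]; exact_mod_cast hQz
        linarith
      rw [hΔ3] at h1
      exact_mod_cast h1
    set Z : ℝ := (150 * (z : ℝ)) ^ l with hZ
    set W : ℝ := (1024 * B) ^ r * 2 ^ (r - 1) with hW
    have hW0 : 0 < W := by positivity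
    set bad : Finset ℤ := S.filter (fun t => ((Qz z).card : ℝ) / 4 <
      |∑ p ∈ Qz z, (jacobiSym (a * t ^ 2 + b * t + c) p : ℝ)|) with hbadd
    have hpt : ∀ t ∈ S, T t ^ r ≤ W * ((1 / N0) ^ r +
        (EC l Z (a * t ^ 2 + b * t + c) (Qz z) : ℝ) / N0 ^ 2 + if t ∈ bad then 1 else 0) := by
      intro t ht
      have hE0 : (0 : ℝ) ≤ (EC l Z (a * t ^ 2 + b * t + c) (Qz z) : ℝ) / N0 ^ 2 := by positivity
      by_cases hDb : t ∈ bad
      · rw [if_pos hDb]
        have h1 : T t ^ r ≤ B ^ r := pow_le_pow_left₀ (hT0 t) (hTB t ht) r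
        have h2 : B ^ r ≤ W := by
          have h3 : (1 : ℝ) ≤ 1024 ^ r := one_le_pow₀ (by norm_num)
          have h4 : (1 : ℝ) ≤ 2 ^ (r - 1) := one_le_pow₀ (by norm_num)
          calc B ^ r = 1 * B ^ r * 1 := by ring
            _ ≤ 1024 ^ r * B ^ r * 2 ^ (r - 1) := by gcongr
            _ = W := by rw [hW, mul_pow 1024 B r]
        have h5 : 0 ≤ (1 / N0) ^ r := by positivity
        nlinarith
      · rw [if_neg hDb, add_zero]
        set D : ℤ := a * t ^ 2 + b * t + c with hD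
        have hDne : D ≠ 0 := by
          rw [hD, ← (hS t ht).2.2]
          exact NumberField.discr_ne_zero _
        have hgood : |∑ p ∈ Qz z, (jacobiSym D p : ℝ)| ≤ ((Qz z).card : ℝ) / 4 := by
          by_contra hcon
          push Not at hcon
          exact hDb (by rw [hbadd, mem_filter]; exact ⟨ht, hcon⟩)
        have hlogD : 8 * Real.log |(D : ℝ)| ≤ (Qz z).card := by
          have h1 : Real.log |(D : ℝ)| ≤ Real.log G + 2 * Real.log N := by
            have h2 : Real.log G + 2 * Real.log N = Real.log (G * N ^ 2) := by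
              rw [Real.log_mul hG0'.ne' (by positivity), Real.log_pow]
              push_cast; ring
            rw [h2]
            apply Real.log_le_log
            · rw [abs_pos]; exact_mod_cast hDne
            · exact hup t ht
          have h3 : 8 * Real.log |(D : ℝ)| ≤ N0 := by linarith
          exact h3
        have hmr := many_res hDne (Qz z) (fun p hp => (mem_Qz hp).1) hgood hlogD
        set P : Finset ℕ := (Qz z).filter (fun p => jacobiSym D p = 1) with hP
        have hPQ : P ⊆ Qz z := filter_subset _ _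
        have hPcard : N0 / 16 ≤ (P.card : ℝ) := by
          refine le_trans ?_ hmr
          linarith
        have hPle : (P.card : ℝ) ≤ N0 := by rw [hN0d]; exact_mod_cast card_le_card hPQ
        have h6 := (hC0 l hl (K t) (hS t ht).2.1 z P (by
          intro p hp
          rw [hP, mem_filter] at hp
          obtain ⟨hpQ, hjs⟩ := hp
          obtain ⟨hpp, hpz2, hpz⟩ := mem_Qz hpQ
          have hp2 : p ≠ 2 := by
            rintro rfl
            have h7 : (z : ℝ) ≤ 4 := by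
              push_cast at hpz2
              linarith
            have h8 : (6 : ℝ) ≤ z := by
              have : 6 ≤ z := by omega
              exact_mod_cast this
            linarith
          obtain ⟨hqr, hpD⟩ := qr_of_js hpp hp2 hjs
          rw [(hS t ht).2.2]
          exact ⟨hpp, by exact_mod_cast hpz, hpD, hqr⟩)).2
        rw [(hS t ht).2.2] at h6
        have hEmono : (EC l Z D P : ℝ) ≤ EC l Z D (Qz z) := by exact_mod_cast EC_mono hPQ
        have h7 : T t * (P.card : ℝ) ^ 2 ≤ B * (2 * P.card + 4 * (EC l Z D (Qz z) : ℝ)) := by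
          refine h6.trans ?_
          apply mul_le_mul (hDB t ht) (by linarith) (by positivity) hB0.le
        refine good_bound r hr (hT0 t) hB0.le hN0p hPcard (by positivity) ?_ h7
        rw [hN0d]
        exact_mod_cast (EC_le (l := l) (Z := Z) (D := D) (P := Qz z))
    -- the three sums
    set G' : ℝ := y ^ (-((1 - ε1) * r)) with hG'
    have hG'0 : 0 ≤ G' := by positivity
    have hGV : G' ≤ F / y ^ r := by
      rw [le_div_iff₀ hyr, hG', ← Real.rpow_natCast y r, ← Real.rpow_add hy0]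
      have e : -((1 - ε1) * r) + r = r * ε1 := by ring
      rw [e]
      calc y ^ (r * ε1) ≤ N ^ (r * ε1) := Real.rpow_le_rpow hy0.le hyN (by positivity)
        _ ≤ F := Real.rpow_le_rpow_of_exponent_le hN (by
            have : 0 ≤ r * ε1 := by positivity
            linarith)
    have hHG : H * G' ≤ V * F := by
      calc H * G' ≤ H * (F / y ^ r) := by gcongr
        _ = V * F := by rw [hV]; ring
    have hs1 : (S.card : ℝ) * (1 / N0) ^ r ≤ 4 * (V * F) := by
      have h1 : (1 / N0) ^ r ≤ G' := by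
        have h2 : 1 / N0 ≤ y ^ (-(1 - ε1)) := by
          rw [Real.rpow_neg hy0.le, inv_eq_one_div]
          exact one_div_le_one_div_of_le (Real.rpow_pos_of_pos hy0 _) hz
        calc (1 / N0) ^ r ≤ (y ^ (-(1 - ε1))) ^ r := by gcongr
          _ = G' := by
              rw [hG', ← Real.rpow_natCast, ← Real.rpow_mul hy0.le]; congr 1; ring
      calc (S.card : ℝ) * (1 / N0) ^ r ≤ 4 * H * G' := by gcongr
        _ = 4 * (H * G') := by ring
        _ ≤ _ := by gcongr
    have hs2 : ∑ t ∈ S, (EC l Z (a * t ^ 2 + b * t + c) (Qz z) : ℝ) / N0 ^ 2 ≤ C3 * (V * F) := by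
      have h1 := hC3 N hN z hzD S (fun t ht => by
        have h4 := (hS t ht).1
        have h5 := quad_lower a b c ha t (hbc.trans h4.1)
        refine ⟨?_, by linarith⟩
        have h6 : N ^ 2 ≤ |(t : ℝ)| ^ 2 := by
          have := h4.1
          gcongr
        have h7 := abs_nonneg (((a * t ^ 2 + b * t + c : ℤ) : ℝ))
        linarith)
      have h2 : ((z : ℝ) ^ l) ^ ε2 ≤ F := by
        calc ((z : ℝ) ^ l) ^ ε2 ≤ (N ^ l) ^ ε2 := by
              have : (z : ℝ) ≤ N := hzy.trans hyN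
              gcongr
          _ = F := by
              rw [← Real.rpow_natCast, ← Real.rpow_mul hN0.le, hε2l]
      have h3 : (z : ℝ) ^ l / N ≤ V := by
        rw [← hyl]
        gcongr
      rw [← Finset.sum_div, div_le_iff₀ (by positivity)]
      refine h1.trans ?_
      calc C3 * ((Qz z).card : ℝ) ^ 2 * ((z : ℝ) ^ l) ^ ε2 * ((z : ℝ) ^ l / N)
          ≤ C3 * ((Qz z).card : ℝ) ^ 2 * F * V := by gcongr
        _ = C3 * (V * F) * N0 ^ 2 := by rw [hN0d]; ring
    have hs3 : (bad.card : ℝ) ≤ 6 * C4 * (V * F) := by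
      have h1 := bad_window hG'0 hC40.le hH _ hbad S
        (fun t ht => (hS t ht).1)
      refine h1.trans ?_
      have h2 : y ^ (2 * r) ≤ V * F := hy2.trans (le_mul_of_one_le_right hV0.le hF1)
      calc 2 * (C4 * (2 * H * G' + y ^ (2 * r))) = 2 * (C4 * (2 * (H * G') + y ^ (2 * r))) := by ring
        _ ≤ 2 * (C4 * (2 * (V * F) + V * F)) := by gcongr
        _ = _ := by ring
    have hfin : ∑ t ∈ S, T t ^ r ≤ W * ((4 + C3 + 6 * C4) * (V * F)) := by
      calc ∑ t ∈ S, T t ^ r ≤ ∑ t ∈ S, W * ((1 / N0) ^ r +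
            (EC l Z (a * t ^ 2 + b * t + c) (Qz z) : ℝ) / N0 ^ 2 +
            if t ∈ bad then 1 else 0) := Finset.sum_le_sum hpt
        _ = W * ((S.card : ℝ) * (1 / N0) ^ r +
            ∑ t ∈ S, (EC l Z (a * t ^ 2 + b * t + c) (Qz z) : ℝ) / N0 ^ 2 +
            bad.card) := by
            rw [← Finset.mul_sum, Finset.sum_add_distrib, Finset.sum_add_distrib, sum_const,
              nsmul_eq_mul]
            congr 2
            rw [← Finset.sum_filter, sum_const, nsmul_eq_mul, mul_one]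
            congr 2
            ext t
            rw [mem_filter, hbadd, mem_filter]
            tauto
        _ ≤ W * (4 * (V * F) + C3 * (V * F) + 6 * C4 * (V * F)) := by gcongr
        _ = _ := by ring
    have hWle : W ≤ (1024 * (C0 * G)) ^ r * 2 ^ (r - 1) * (N ^ r * F) := by
      have h1 : (1024 * B) ^ r = (1024 * (C0 * G)) ^ r * (N ^ (1 + 2 * ε1)) ^ r := by
        rw [hB, ← mul_pow]; congr 1; ring
      rw [hW, h1]
      calc (1024 * (C0 * G)) ^ r * (N ^ (1 + 2 * ε1)) ^ r * 2 ^ (r - 1)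
          ≤ (1024 * (C0 * G)) ^ r * (N ^ r * F) * 2 ^ (r - 1) := by gcongr
        _ = _ := by ring
    refine hfin.trans ?_
    have hK0 : 0 ≤ 4 + C3 + 6 * C4 := by positivity
    calc W * ((4 + C3 + 6 * C4) * (V * F))
        ≤ ((1024 * (C0 * G)) ^ r * 2 ^ (r - 1) * (N ^ r * F)) * ((4 + C3 + 6 * C4) * (V * F)) := by
          gcongr
      _ = (1024 * (C0 * G)) ^ r * 2 ^ (r - 1) * (4 + C3 + 6 * C4) * F ^ 2 * (N ^ r * V) := by ring
      _ ≤ _ := by
          have hsr : 0 ≤ N ^ r * V := by positivity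
          apply mul_le_mul_of_nonneg_right _ hsr
          apply mul_le_mul _ hFε (by positivity) (by positivity)
          linarith

end Pool.Agent.Y159.TQ
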