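import Pool.Agent.Y159.TQ.Stm
import Pool.Agent.Y159.QS.Coll

set_option autoImplicit false

/-! The number of collisions in a thin family. -/

namespace Pool.Agent.Y159.TQ

open Finset Pool.Agent.Y159.QS
open scoped Classical

/-- the number of solutions for fixed `k` and sign -/
theorem fixed_k (hrep : TaskRep) (a b c : ℤ) (ha : a ≠ 0) (A : ℝ) (hA : 1 ≤ A) (ε : ℝ)
    (hε : 0 < ε) : ∃ C : ℝ, 0 < C ∧ ∀ Z : ℝ, 1 ≤ Z → ∀ k : ℕ, 1 ≤ k → ∀ (M : ℕ) (σ : ℤ),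
    (σ = 1 ∨ σ = -1) → (M : ℝ) ≤ Z ^ 2 →
    (k : ℤ) ^ 2 * (b ^ 2 - 4 * a * c) - 16 * a * σ * M ≠ 0 → ∀ S : Finset ℤ,
    (∀ t ∈ S, (k : ℝ) * (1 + |(t : ℝ)|) ≤ A * Z ∧
      ∃ u : ℤ, (k : ℤ) ^ 2 * (a * t ^ 2 + b * t + c) = u ^ 2 - 4 * σ * M) →
    (S.card : ℝ) ≤ C * Z ^ ε := by
  obtain ⟨C0, hC00, hC0⟩ := hrep a ha (ε / 3) (by positivity)
  set E : ℝ := ((2 * |(a : ℝ)| + |(b : ℝ)|) * A) ^ 2 +
    (A ^ 2 * |((b ^ 2 - 4 * a * c : ℤ) : ℝ)| + 16 * |(a : ℝ)|) + 1 with hE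
  have hE1 : 1 ≤ E := by
    have : 0 ≤ ((2 * |(a : ℝ)| + |(b : ℝ)|) * A) ^ 2 := by positivity
    have : 0 ≤ A ^ 2 * |((b ^ 2 - 4 * a * c : ℤ) : ℝ)| + 16 * |(a : ℝ)| := by positivity
    rw [hE]; linarith
  refine ⟨C0 * (E ^ 2) ^ (ε / 3), by positivity, ?_⟩
  intro Z hZ k hk M σ hσ hM hR S hS
  have hZ0 : 0 < Z := by linarith
  have hk1 : (1 : ℝ) ≤ k := by exact_mod_cast hk
  have hkz : (k : ℤ) ≠ 0 := by exact_mod_cast (by omega : k ≠ 0)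
  choose! u hu using fun t ht => (hS t ht).2
  set R : ℤ := (k : ℤ) ^ 2 * (b ^ 2 - 4 * a * c) - 16 * a * σ * M with hRdef
  have hσ1 : |(σ : ℝ)| = 1 := by rcases hσ with rfl | rfl <;> simp
  rcases S.eq_empty_or_nonempty with rfl | ⟨t0, ht0⟩
  · simp only [card_empty, Nat.cast_zero]
    positivity
  have hkAZ : (k : ℝ) ≤ A * Z := by
    have := (hS t0 ht0).1
    have h1 : (k : ℝ) * 1 ≤ (k : ℝ) * (1 + |(t0 : ℝ)|) := by
      gcongr
      linarith [abs_nonneg (t0 : ℝ)]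
    linarith
  have hRabs : |(R : ℝ)| ≤ (A ^ 2 * |((b ^ 2 - 4 * a * c : ℤ) : ℝ)| + 16 * |(a : ℝ)|) * Z ^ 2 := by
    have e : (R : ℝ) = (k : ℝ) ^ 2 * ((b ^ 2 - 4 * a * c : ℤ) : ℝ) - 16 * (a : ℝ) * σ * M := by
      rw [hRdef]; push_cast; ring
    rw [e]
    calc |(k : ℝ) ^ 2 * ((b ^ 2 - 4 * a * c : ℤ) : ℝ) - 16 * (a : ℝ) * σ * M|
        ≤ |(k : ℝ) ^ 2 * ((b ^ 2 - 4 * a * c : ℤ) : ℝ)| + |16 * (a : ℝ) * σ * M| := abs_sub _ _
      _ = (k : ℝ) ^ 2 * |((b ^ 2 - 4 * a * c : ℤ) : ℝ)| + 16 * |(a : ℝ)| * M := by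
          rw [abs_mul, abs_mul, abs_mul, abs_mul, hσ1, Nat.abs_cast, abs_of_nonneg (sq_nonneg _)]
          norm_num
      _ ≤ (A * Z) ^ 2 * |((b ^ 2 - 4 * a * c : ℤ) : ℝ)| + 16 * |(a : ℝ)| * Z ^ 2 := by
          gcongr
      _ = _ := by ring
  have hRE : |(R : ℝ)| ≤ E * Z ^ 2 := by
    refine hRabs.trans ?_
    gcongr
    rw [hE]
    have : 0 ≤ ((2 * |(a : ℝ)| + |(b : ℝ)|) * A) ^ 2 := by positivity
    linarith
  set F : ℤ → ℤ × ℤ := fun t => (k * (2 * a * t + b), 2 * u t) with hF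
  have hinj : ∀ t ∈ S, ∀ t' ∈ S, F t = F t' → t = t' := by
    intro t _ t' _ h
    have h1 : (k : ℤ) * (2 * a * t + b) = k * (2 * a * t' + b) := congrArg Prod.fst h
    have h2 := mul_left_cancel₀ hkz h1
    have h3 : 2 * a * t = 2 * a * t' := by linarith
    exact mul_left_cancel₀ (mul_ne_zero two_ne_zero ha) h3
  have hcard : (S.image F).card = S.card := card_image_of_injOn (fun t ht t' ht' h =>
    hinj t ht t' ht' h)
  have hmain := hC0 R (E * Z) hR (by nlinarith) (S.image F) (by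
    intro x hx
    rw [mem_image] at hx
    obtain ⟨t, ht, rfl⟩ := hx
    have h1 := hu t ht
    have hX : |((k * (2 * a * t + b) : ℤ) : ℝ)| ≤ (2 * |(a : ℝ)| + |(b : ℝ)|) * A * Z := by
      have e1 : |((k * (2 * a * t + b) : ℤ) : ℝ)| = k * |2 * (a : ℝ) * t + b| := by
        push_cast
        rw [abs_mul, Nat.abs_cast]
      have e2 : |2 * (a : ℝ) * t + b| ≤ (2 * |(a : ℝ)| + |(b : ℝ)|) * (1 + |(t : ℝ)|) := by
        calc |2 * (a : ℝ) * t + b| ≤ |2 * (a : ℝ) * t| + |(b : ℝ)| := abs_add_le _ _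
          _ = 2 * |(a : ℝ)| * |(t : ℝ)| + |(b : ℝ)| := by
              rw [abs_mul, abs_mul]; norm_num
          _ ≤ _ := by
              have h3 := abs_nonneg (a : ℝ)
              have h4 := abs_nonneg (b : ℝ)
              have h5 := abs_nonneg (t : ℝ)
              nlinarith [mul_nonneg h4 h5]
      rw [e1]
      calc (k : ℝ) * |2 * (a : ℝ) * t + b| ≤ k * ((2 * |(a : ℝ)| + |(b : ℝ)|) * (1 + |(t : ℝ)|)) := by
            gcongr
        _ = (2 * |(a : ℝ)| + |(b : ℝ)|) * (k * (1 + |(t : ℝ)|)) := by ring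
        _ ≤ (2 * |(a : ℝ)| + |(b : ℝ)|) * (A * Z) := by
            have := (hS t ht).1
            gcongr
        _ = _ := by ring
    have heq : ((k : ℤ) * (2 * a * t + b)) ^ 2 - a * (2 * u t) ^ 2 = R := by
      rw [hRdef]
      linear_combination (4 * a) * h1
    refine ⟨heq, ?_, ?_⟩
    · refine hX.trans ?_
      have h6 : (2 * |(a : ℝ)| + |(b : ℝ)|) * A ≤ E := by
        rw [hE]
        have : 0 ≤ A ^ 2 * |((b ^ 2 - 4 * a * c : ℤ) : ℝ)| + 16 * |(a : ℝ)| := by positivity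
        nlinarith [sq_nonneg ((2 * |(a : ℝ)| + |(b : ℝ)|) * A - 1)]
      gcongr
    · have h7 : |(a : ℝ)| * ((2 * u t : ℤ) : ℝ) ^ 2 ≤ E * Z ^ 2 := by
        have e3 : (a : ℝ) * ((2 * u t : ℤ) : ℝ) ^ 2 = ((k * (2 * a * t + b) : ℤ) : ℝ) ^ 2 - R := by
          rw [← heq]; push_cast; ring
        have e4 : |(a : ℝ)| * ((2 * u t : ℤ) : ℝ) ^ 2 = |(a : ℝ) * ((2 * u t : ℤ) : ℝ) ^ 2| := by
          rw [abs_mul, abs_of_nonneg (sq_nonneg ((2 * u t : ℤ) : ℝ))]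
        rw [e4, e3]
        calc |((k * (2 * a * t + b) : ℤ) : ℝ) ^ 2 - R|
            ≤ |((k * (2 * a * t + b) : ℤ) : ℝ) ^ 2| + |(R : ℝ)| := abs_sub _ _
          _ ≤ ((2 * |(a : ℝ)| + |(b : ℝ)|) * A * Z) ^ 2 +
              (A ^ 2 * |((b ^ 2 - 4 * a * c : ℤ) : ℝ)| + 16 * |(a : ℝ)|) * Z ^ 2 := by
              rw [abs_pow]
              gcongr
          _ = (((2 * |(a : ℝ)| + |(b : ℝ)|) * A) ^ 2 +
              (A ^ 2 * |((b ^ 2 - 4 * a * c : ℤ) : ℝ)| + 16 * |(a : ℝ)|)) * Z ^ 2 := by ring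
          _ ≤ E * Z ^ 2 := by
              gcongr
              rw [hE]; linarith
      have ha1 : (1 : ℝ) ≤ |(a : ℝ)| := by
        exact_mod_cast Int.one_le_abs ha
      have h8 : ((2 * u t : ℤ) : ℝ) ^ 2 ≤ E * Z ^ 2 := by
        nlinarith [sq_nonneg ((2 * u t : ℤ) : ℝ)]
      apply abs_le_of_sq_le_sq _ (by positivity)
      refine h8.trans ?_
      rw [mul_pow]
      gcongr
      nlinarith)
  rw [hcard] at hmain
  refine hmain.trans ?_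
  have hR0 : 0 ≤ |(R : ℝ)| := abs_nonneg _
  calc C0 * (|(R : ℝ)| * (E * Z)) ^ (ε / 3) ≤ C0 * ((E * Z ^ 2) * (E * Z)) ^ (ε / 3) := by
        gcongr
    _ = C0 * (E ^ 2 * Z ^ 3) ^ (ε / 3) := by ring_nf
    _ = C0 * ((E ^ 2) ^ (ε / 3) * (Z ^ 3) ^ (ε / 3)) := by
        rw [Real.mul_rpow (by positivity) (by positivity)]
    _ = C0 * (E ^ 2) ^ (ε / 3) * Z ^ ε := by
        rw [← Real.rpow_natCast Z 3, ← Real.rpow_mul hZ0.le]
        have : ((3 : ℕ) : ℝ) * (ε / 3) = ε := by push_cast; ring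
        rw [this]; ring

/-- the number of members of the family with a collision at the pair `p, q` -/
theorem coll_t (hrep : TaskRep) (a b c : ℤ) (ha : a ≠ 0) (hΔ : b ^ 2 - 4 * a * c ≠ 0) (A : ℝ)
    (hA : 1 ≤ A) (ε : ℝ) (hε : 0 < ε) : ∃ C : ℝ, 0 < C ∧ ∀ (l : ℕ), 1 ≤ l → ∀ N Z : ℝ, 1 ≤ N →
    1 ≤ Z → ∀ p q : ℕ, p.Prime → p ≠ 2 → (b ^ 2 - 4 * a * c).natAbs < p →
    (((p * q) ^ l : ℕ) : ℝ) ≤ Z ^ 2 → ∀ S : Finset ℤ,
    (∀ t ∈ S, N ^ 2 ≤ A * |((a * t ^ 2 + b * t + c : ℤ) : ℝ)| ∧ 1 + |(t : ℝ)| ≤ A * N) →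
    ((S.filter (fun t => Coll l Z (a * t ^ 2 + b * t + c) p q)).card : ℝ) ≤
      C * (Z / N) * Z ^ ε := by
  obtain ⟨C0, hC00, hC0⟩ := fixed_k hrep a b c ha (3 * A ^ 2) (by nlinarith) ε hε
  refine ⟨6 * A * C0, by positivity, ?_⟩
  intro l hl N Z hN hZ p q hp hp2 hpΔ hM S hS
  have hN0 : 0 < N := by linarith
  have hZ0 : 0 < Z := by linarith
  set M : ℕ := (p * q) ^ l with hMdef
  set Kb : ℕ := ⌊3 * A * Z / N⌋₊ with hKb
  have hKb' : (Kb : ℝ) ≤ 3 * A * Z / N := Nat.floor_le (by positivity)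
  set G : ℕ → ℤ → Finset ℤ := fun k σ => S.filter (fun t => (k : ℝ) * (1 + |(t : ℝ)|) ≤ 3 * A ^ 2 * Z ∧
    ∃ u : ℤ, (k : ℤ) ^ 2 * (a * t ^ 2 + b * t + c) = u ^ 2 - 4 * σ * M ∧ Int.gcd u k ∣ 2) with hG
  have hsub : S.filter (fun t => Coll l Z (a * t ^ 2 + b * t + c) p q) ⊆
      (Finset.Icc 1 Kb).biUnion (fun k => G k 1 ∪ G k (-1)) := by
    intro t ht
    rw [mem_filter] at ht
    obtain ⟨htS, k, u, σ, hk, hσ, h1, h2, h3⟩ := ht
    obtain ⟨h4, h5⟩ := hS t htS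
    have h6 : (k : ℝ) * N ≤ 3 * A * Z := by
      apply le_of_sq_le_sq _ (by positivity)
      have h7 : (k : ℝ) ^ 2 * N ^ 2 ≤ (k : ℝ) ^ 2 * (A * |((a * t ^ 2 + b * t + c : ℤ) : ℝ)|) := by
        gcongr
      have h8 : (k : ℝ) ^ 2 * (A * |((a * t ^ 2 + b * t + c : ℤ) : ℝ)|) ≤ A * (8 * Z ^ 2) := by
        have : (k : ℝ) ^ 2 * (A * |((a * t ^ 2 + b * t + c : ℤ) : ℝ)|) =
          A * ((k : ℝ) ^ 2 * |((a * t ^ 2 + b * t + c : ℤ) : ℝ)|) := by ring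
        rw [this]
        gcongr
      have h9 : A * (8 * Z ^ 2) ≤ (3 * A * Z) ^ 2 := by
        have : 0 ≤ Z ^ 2 := by positivity
        nlinarith [mul_nonneg this (by linarith : (0 : ℝ) ≤ A - 1), mul_nonneg (mul_nonneg this (by linarith : (0 : ℝ) ≤ A)) (by linarith : (0 : ℝ) ≤ A - 1)]
      calc ((k : ℝ) * N) ^ 2 = (k : ℝ) ^ 2 * N ^ 2 := by ring
        _ ≤ _ := h7.trans (h8.trans h9)
    have h10 : (k : ℝ) * (1 + |(t : ℝ)|) ≤ 3 * A ^ 2 * Z := by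
      calc (k : ℝ) * (1 + |(t : ℝ)|) ≤ k * (A * N) := by gcongr
        _ = A * (k * N) := by ring
        _ ≤ A * (3 * A * Z) := by gcongr
        _ = _ := by ring
    rw [mem_biUnion]
    refine ⟨k, ?_, ?_⟩
    · rw [mem_Icc]
      refine ⟨hk, ?_⟩
      rw [hKb]
      apply Nat.le_floor
      rw [le_div_iff₀ hN0]
      exact h6
    · rw [mem_union]
      rcases hσ with rfl | rfl
      · left
        rw [hG, mem_filter]
        exact ⟨htS, h10, u, h1, h2⟩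
      · right
        rw [hG, mem_filter]
        exact ⟨htS, h10, u, h1, h2⟩
  have hone : ∀ k ∈ Finset.Icc 1 Kb, ∀ σ : ℤ, (σ = 1 ∨ σ = -1) → ((G k σ).card : ℝ) ≤ C0 * Z ^ ε := by
    intro k hk σ hσ
    rw [mem_Icc] at hk
    rcases (G k σ).eq_empty_or_nonempty with h0 | ⟨t0, ht0⟩
    · rw [h0, card_empty, Nat.cast_zero]; positivity
    have hR : (k : ℤ) ^ 2 * (b ^ 2 - 4 * a * c) - 16 * a * σ * M ≠ 0 := by
      intro hR0
      rw [hG, mem_filter] at ht0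
      obtain ⟨-, -, u, hu1, hu2⟩ := ht0
      have hpM : (p : ℤ) ∣ (M : ℤ) := by
        have : p ∣ M := by
          rw [hMdef]
          exact (Dvd.intro q rfl).trans (dvd_pow_self _ (by omega))
        exact_mod_cast this
      have hpp : Prime (p : ℤ) := Nat.prime_iff_prime_int.mp hp
      have h1 : (p : ℤ) ∣ (k : ℤ) ^ 2 * (b ^ 2 - 4 * a * c) := by
        have e : (k : ℤ) ^ 2 * (b ^ 2 - 4 * a * c) = 16 * a * σ * M := by linarith
        rw [e]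
        exact hpM.mul_left _
      have h2 : ¬ (p : ℤ) ∣ (b ^ 2 - 4 * a * c) := by
        intro h
        have h3 := Int.natAbs_dvd_natAbs.mpr h
        rw [Int.natAbs_natCast] at h3
        have := Nat.le_of_dvd (Int.natAbs_pos.mpr hΔ) h3
        omega
      have h3 : (p : ℤ) ∣ (k : ℤ) := by
        rcases hpp.dvd_or_dvd h1 with h | h
        · exact hpp.dvd_of_dvd_pow h
        · exact absurd h h2
      have h4 : (p : ℤ) ∣ u := by
        have e : u ^ 2 = (k : ℤ) ^ 2 * (a * t0 ^ 2 + b * t0 + c) + 4 * σ * M := by linarith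
        have : (p : ℤ) ∣ u ^ 2 := by
          rw [e]
          exact dvd_add ((dvd_pow h3 two_ne_zero).mul_right _) (hpM.mul_left _)
        exact hpp.dvd_of_dvd_pow this
      have h5 : (p : ℤ) ∣ (Int.gcd u k : ℤ) := Int.dvd_coe_gcd h4 h3
      have h6 : p ∣ Int.gcd u k := by exact_mod_cast h5
      have h7 := (Nat.prime_dvd_prime_iff_eq hp Nat.prime_two).mp (h6.trans hu2)
      exact hp2 h7
    refine hC0 Z hZ k hk.1 M σ hσ hM hR (G k σ) ?_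
    intro t ht
    rw [hG, mem_filter] at ht
    obtain ⟨-, h1, u, hu1, -⟩ := ht
    exact ⟨h1, u, hu1⟩
  have h1 : ((S.filter (fun t => Coll l Z (a * t ^ 2 + b * t + c) p q)).card : ℝ) ≤
      ∑ k ∈ Finset.Icc 1 Kb, ((G k 1 ∪ G k (-1)).card : ℝ) := by
    exact_mod_cast (card_le_card hsub).trans card_biUnion_le
  refine h1.trans ?_
  calc ∑ k ∈ Finset.Icc 1 Kb, ((G k 1 ∪ G k (-1)).card : ℝ)
      ≤ ∑ k ∈ Finset.Icc 1 Kb, (2 * (C0 * Z ^ ε)) := by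
        apply Finset.sum_le_sum
        intro k hk
        have h2 : ((G k 1 ∪ G k (-1)).card : ℝ) ≤ (G k 1).card + (G k (-1)).card := by
          exact_mod_cast card_union_le _ _
        have h3 := hone k hk 1 (Or.inl rfl)
        have h4 := hone k hk (-1) (Or.inr rfl)
        linarith
    _ = Kb * (2 * (C0 * Z ^ ε)) := by
        rw [sum_const, nsmul_eq_mul, Nat.card_Icc, Nat.add_sub_cancel]
    _ ≤ (3 * A * Z / N) * (2 * (C0 * Z ^ ε)) := by gcongr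
    _ = _ := by ring

end Pool.Agent.Y159.TQ
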