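import Pool.Agent.Y159.TQ.Short
import Pool.Agent.Y159.QS.Fin

set_option autoImplicit false

/-! The two forms of the theorem on thin families. -/

namespace Pool.Agent.Y159.TQ

open NumberField Finset Pool.Agent.TH869.EVF Pool.Agent.Y159.QS
open scoped Classical

/-- short intervals -/
theorem short_t' (hrep : TaskRep) (hsup : TaskSup) (a b c : ℤ) (ha : a ≠ 0)
    (hΔ : b ^ 2 - 4 * a * c ≠ 0) (l r : ℕ) (hl : 1 ≤ l) (hr : 1 ≤ r) (ε : ℝ) (hε : 0 < ε) :
    ∃ C : ℝ, 0 < C ∧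
    ∀ N H : ℝ, 1 ≤ H → H ≤ N → (H * N) ^ (3 * r / (l + r) : ℝ) ≤ H →
    ∀ (S : Finset ℤ) (K : ℤ → Type) [∀ t, Field (K t)] [∀ t, NumberField (K t)],
    (∀ t ∈ S, (N ≤ |(t : ℝ)| ∧ |(t : ℝ)| ≤ N + H) ∧ Module.finrank ℚ (K t) = 2 ∧
      NumberField.discr (K t) = a * t ^ 2 + b * t + c) →
    ∑ t ∈ S, (Nat.card {x : ClassGroup (𝓞 (K t)) // x ^ l = 1} : ℝ) ^ r ≤
      C * N ^ ε * H * (N / (H * N) ^ (1 / (l + r) : ℝ)) ^ r := by
  obtain ⟨C, hC0, hC⟩ := short_t hrep hsup a b c ha hΔ l r hl hr ε hε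
  refine ⟨C, hC0, ?_⟩
  intro N H hH hHN hcond S K _ _ hS
  have hN : 1 ≤ N := hH.trans hHN
  have hQ : 0 < H * N := mul_pos (by linarith) (by linarith)
  have hlr : (0 : ℝ) < l + r := by
    have : (1 : ℝ) ≤ l := by exact_mod_cast hl
    positivity
  set y : ℝ := (H * N) ^ (1 / (l + r) : ℝ) with hy
  have hy0 : 0 < y := Real.rpow_pos_of_pos hQ _
  have h1 : y ^ (l + r) = H * N := by
    rw [hy, ← Real.rpow_natCast, ← Real.rpow_mul hQ.le]
    push_cast
    rw [one_div, inv_mul_cancel₀ hlr.ne', Real.rpow_one]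
  have h2 : y ^ (3 * r) ≤ H := by
    refine le_trans (le_of_eq ?_) hcond
    rw [hy, ← Real.rpow_natCast, ← Real.rpow_mul hQ.le]
    congr 1
    push_cast
    field_simp
  refine (hC N H y hH hHN hy0 h1 h2 S K hS).trans (le_of_eq ?_)
  rw [div_pow]
  ring

/-- all parameters up to `X` -/
theorem full_t (hrep : TaskRep) (hsup : TaskSup) (a b c : ℤ) (ha : a ≠ 0)
    (hΔ : b ^ 2 - 4 * a * c ≠ 0) (l r : ℕ) (hr : 1 ≤ r) (hrl : 5 * r ≤ l) (ε : ℝ) (hε : 0 < ε) :
    ∃ C : ℝ, 0 < C ∧ ∀ X : ℝ, 1 ≤ X →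
    ∀ (S : Finset ℤ) (K : ℤ → Type) [∀ t, Field (K t)] [∀ t, NumberField (K t)],
    (∀ t ∈ S, |(t : ℝ)| ≤ X ∧ Module.finrank ℚ (K t) = 2 ∧
      NumberField.discr (K t) = a * t ^ 2 + b * t + c) →
    ∑ t ∈ S, (Nat.card {x : ClassGroup (𝓞 (K t)) // x ^ l = 1} : ℝ) ^ r ≤
      C * X ^ (1 + r - 2 * r / (l + r) + ε : ℝ) := by
  have hl : 1 ≤ l := by omega
  obtain ⟨C, hC0, hC⟩ := short_t hrep hsup a b c ha hΔ l r hl hr ε hε
  obtain ⟨C1, hC10, hC1⟩ := single (1 / 2) (by norm_num)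
  refine ⟨(C1 * |(c : ℝ)| ^ ((1 : ℝ) / 2 + 1 / 2)) ^ r + 2 * C, by positivity, ?_⟩
  intro X hX S K _ _ hS
  have hlr' : (1 : ℝ) ≤ l := by exact_mod_cast hl
  have hrr : (1 : ℝ) ≤ r := by exact_mod_cast hr
  have hrlr : (5 : ℝ) * r ≤ l := by exact_mod_cast hrl
  have hlr : (0 : ℝ) < l + r := by positivity
  set θ : ℝ := 1 + r - 2 * r / (l + r) + ε with hθ
  have hθ1 : 1 ≤ θ := by
    have h1 : 2 * r / (l + r) ≤ (r : ℝ) := by
      rw [div_le_iff₀ (by positivity)]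
      nlinarith
    rw [hθ]; linarith
  have hX0 : 0 < X := by linarith
  set T : ℤ → ℝ := fun t => (Nat.card {x : ClassGroup (𝓞 (K t)) // x ^ l = 1} : ℝ) with hT
  have hT0 : ∀ t, 0 ≤ T t := fun t => Nat.cast_nonneg _
  -- the part with `t ≠ 0`
  have hmain : ∀ S' : Finset ℤ, S' ⊆ S → (∀ t ∈ S', t ≠ 0) → ∑ t ∈ S', T t ^ r ≤ 2 * C * X ^ θ := by
    intro S' hS' hne
    set J : ℕ := Nat.log 2 ⌊X⌋₊ with hJ
    have hX1 : 1 ≤ ⌊X⌋₊ := Nat.le_floor (by exact_mod_cast hX)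
    have hmaps : ∀ t ∈ S', Nat.log 2 t.natAbs ∈ Finset.range (J + 1) := by
      intro t ht
      rw [mem_range, Nat.lt_succ_iff, hJ]
      apply Nat.log_mono_right
      apply Nat.le_floor
      rw [Nat.cast_natAbs, Int.cast_abs]
      exact (hS t (hS' ht)).1
    have hblock : ∀ j ∈ Finset.range (J + 1),
        ∑ t ∈ S'.filter (fun t => Nat.log 2 t.natAbs = j), T t ^ r ≤ C * ((2 : ℝ) ^ θ) ^ j := by
      intro j _
      set x : ℝ := (2 : ℝ) ^ j with hx
      have hx1 : 1 ≤ x := one_le_pow₀ (by norm_num)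
      have hx0 : 0 < x := by positivity
      set y : ℝ := x ^ (2 / (l + r) : ℝ) with hy
      have hy0 : 0 < y := Real.rpow_pos_of_pos hx0 _
      have h1 : y ^ (l + r) = x * x := by
        rw [hy, ← Real.rpow_natCast, ← Real.rpow_mul hx0.le]
        push_cast
        rw [div_mul_cancel₀ _ hlr.ne', ← sq]
        norm_num
      have h2 : y ^ (3 * r) ≤ x := by
        rw [hy, ← Real.rpow_natCast, ← Real.rpow_mul hx0.le]
        nth_rewrite 2 [← Real.rpow_one x]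
        apply Real.rpow_le_rpow_of_exponent_le hx1
        push_cast
        rw [div_mul_eq_mul_div, div_le_one (by positivity)]
        nlinarith
      have h3 := hC x x y hx1 le_rfl hy0 h1 h2 (S'.filter (fun t => Nat.log 2 t.natAbs = j)) K (by
        intro t ht
        rw [mem_filter] at ht
        obtain ⟨htS, htj⟩ := ht
        obtain ⟨-, h4, h5⟩ := hS t (hS' htS)
        have htne : t.natAbs ≠ 0 := Int.natAbs_ne_zero.mpr (hne t htS)
        have h6 : |(t : ℝ)| = (t.natAbs : ℝ) := by rw [Nat.cast_natAbs, Int.cast_abs]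
        refine ⟨⟨?_, ?_⟩, h4, h5⟩
        · rw [h6, hx, ← htj]
          exact_mod_cast Nat.pow_log_le_self 2 htne
        · have h7 := Nat.lt_pow_succ_log_self (b := 2) (by norm_num) t.natAbs
          rw [htj] at h7
          rw [h6, hx]
          have h8 : (t.natAbs : ℝ) ≤ (2 : ℝ) ^ (j + 1) := by exact_mod_cast h7.le
          rw [pow_succ] at h8
          linarith)
      refine h3.trans (le_of_eq ?_)
      have h9 : x ^ ε * (x ^ r * (x / y ^ r)) = x ^ θ := by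
        have e2 : x / y ^ r = x ^ (1 - 2 * r / (l + r) : ℝ) := by
          rw [Real.rpow_sub hx0, Real.rpow_one, hy, ← Real.rpow_natCast, ← Real.rpow_mul hx0.le]
          congr 2
          ring
        rw [e2, ← Real.rpow_natCast x r, ← Real.rpow_add hx0, ← Real.rpow_add hx0]
        congr 1
        rw [hθ]; ring
      rw [mul_assoc, h9, hx, ← Real.rpow_natCast 2 j, ← Real.rpow_mul (by norm_num),
        mul_comm (j : ℝ), Real.rpow_mul (by norm_num), Real.rpow_natCast]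
    have h2θ : (2 : ℝ) ≤ 2 ^ θ := by
      calc (2 : ℝ) = 2 ^ (1 : ℝ) := (Real.rpow_one 2).symm
        _ ≤ 2 ^ θ := Real.rpow_le_rpow_of_exponent_le (by norm_num) hθ1
    calc ∑ t ∈ S', T t ^ r
        = ∑ j ∈ Finset.range (J + 1), ∑ t ∈ S'.filter (fun t => Nat.log 2 t.natAbs = j), T t ^ r :=
          (Finset.sum_fiberwise_of_maps_to hmaps _).symm
      _ ≤ ∑ j ∈ Finset.range (J + 1), C * ((2 : ℝ) ^ θ) ^ j := Finset.sum_le_sum hblock
      _ = C * ∑ j ∈ Finset.range (J + 1), ((2 : ℝ) ^ θ) ^ j := by rw [Finset.mul_sum]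
      _ ≤ C * (2 * ((2 : ℝ) ^ θ) ^ J) := by
          have := geom_le h2θ J
          gcongr
      _ ≤ C * (2 * X ^ θ) := by
          have h1 : ((2 : ℝ) ^ θ) ^ J ≤ X ^ θ := by
            rw [← Real.rpow_natCast, ← Real.rpow_mul (by norm_num), mul_comm θ,
              Real.rpow_mul (by norm_num), Real.rpow_natCast]
            apply Real.rpow_le_rpow (by positivity) _ (by linarith)
            have h2 : 2 ^ J ≤ ⌊X⌋₊ := Nat.pow_log_le_self 2 (by omega)
            have h3 : ((2 ^ J : ℕ) : ℝ) ≤ ⌊X⌋₊ := by exact_mod_cast h2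
            push_cast at h3
            exact h3.trans (Nat.floor_le hX0.le)
          gcongr
      _ = 2 * C * X ^ θ := by ring
  -- the term `t = 0`
  have hzero : ∑ t ∈ S.filter (fun t => t = 0), T t ^ r ≤
      (C1 * |(c : ℝ)| ^ ((1 : ℝ) / 2 + 1 / 2)) ^ r * X ^ θ := by
    have h1 : S.filter (fun t => t = 0) ⊆ {0} := by
      intro t ht
      rw [mem_filter] at ht
      rw [mem_singleton]
      exact ht.2
    have hXθ : 1 ≤ X ^ θ := Real.one_le_rpow hX (by linarith)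
    have hK0 : 0 ≤ (C1 * |(c : ℝ)| ^ ((1 : ℝ) / 2 + 1 / 2)) ^ r := by positivity
    by_cases h0 : (0 : ℤ) ∈ S
    · have h2 : ∑ t ∈ S.filter (fun t => t = 0), T t ^ r ≤ ∑ t ∈ ({0} : Finset ℤ), T t ^ r :=
        Finset.sum_le_sum_of_subset_of_nonneg h1 fun t _ _ => pow_nonneg (hT0 t) r
      rw [sum_singleton] at h2
      obtain ⟨-, h4, h5⟩ := hS 0 h0
      have h3 := (hC1 l hl (K 0) h4 0 ∅ (by simp)).1
      rw [h5] at h3
      have e : ((a * 0 ^ 2 + b * 0 + c : ℤ) : ℝ) = c := by push_cast; ring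
      rw [e] at h3
      have h6 : T 0 ^ r ≤ (C1 * |(c : ℝ)| ^ ((1 : ℝ) / 2 + 1 / 2)) ^ r :=
        pow_le_pow_left₀ (hT0 0) h3 r
      nlinarith
    · have h2 : S.filter (fun t => t = 0) = ∅ := by
        apply Finset.filter_eq_empty_iff.mpr
        rintro t ht rfl
        exact h0 ht
      rw [h2, sum_empty]
      positivity
  have hsplit : ∑ t ∈ S, T t ^ r = ∑ t ∈ S.filter (fun t => t = 0), T t ^ r +
      ∑ t ∈ S.filter (fun t => ¬ t = 0), T t ^ r :=
    (Finset.sum_filter_add_sum_filter_not S _ _).symm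
  have h2 := hmain (S.filter (fun t => ¬ t = 0)) (filter_subset _ _) (by
    intro t ht
    exact (mem_filter.mp ht).2)
  rw [hsplit]
  linarith

end Pool.Agent.Y159.TQ
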