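import Pool.Agent.Y159.TQ.Sum
import Pool.Agent.Y159.QS.Main
import Pool.Agent.TH869.EVF.Wf

set_option autoImplicit false

/-! Preparations for the moments in thin families. -/

namespace Pool.Agent.Y159.TQ

open Finset Pool.Agent.TH869.EVF Pool.Agent.Y159.QS
open scoped Classical

/-- the Jacobi symbol and squares -/
theorem qr_of_js {p : ℕ} (hp : p.Prime) (hp2 : p ≠ 2) {D : ℤ} (h : jacobiSym D p = 1) :
    QR p D ∧ ¬ p ∣ D.natAbs := by
  have : Fact p.Prime := ⟨hp⟩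
  rw [← jacobiSym.legendreSym.to_jacobiSym] at h
  have h0 : ((D : ℤ) : ZMod p) ≠ 0 := by
    intro h0
    rw [(legendreSym.eq_zero_iff p D).mpr h0] at h
    exact zero_ne_one h
  obtain ⟨r, hr⟩ := (legendreSym.eq_one_iff p h0).mp h
  refine ⟨⟨r, by rw [hr, sq], ?_⟩, ?_⟩
  · have h2 : (2 : ZMod p) ≠ 0 := by
      intro h2
      have : ((2 : ℕ) : ZMod p) = 0 := by exact_mod_cast h2
      rw [ZMod.natCast_eq_zero_iff] at this
      exact hp2 ((Nat.prime_dvd_prime_iff_eq hp Nat.prime_two).mp this)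
    refine mul_ne_zero h2 ?_
    rintro rfl
    exact h0 (by rw [hr, mul_zero])
  · intro hd
    apply h0
    rw [ZMod.intCast_zmod_eq_zero_iff_dvd]
    exact Int.natCast_dvd.mpr hd

theorem js_cases {p : ℕ} (hp : p.Prime) (D : ℤ) (hD : D ≠ 0) :
    (jacobiSym D p : ℝ) ≤ 2 * (if jacobiSym D p = 1 then 1 else 0) - 1 +
      (if p ∈ D.natAbs.primeFactors then 1 else 0) := by
  have : Fact p.Prime := ⟨hp⟩
  rcases jacobiSym.trichotomy D p with h | h | h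
  · have hd : p ∈ D.natAbs.primeFactors := by
      rw [← jacobiSym.legendreSym.to_jacobiSym, legendreSym.eq_zero_iff,
        ZMod.intCast_zmod_eq_zero_iff_dvd] at h
      exact Nat.mem_primeFactors.mpr ⟨hp, Int.natCast_dvd.mp h, Int.natAbs_ne_zero.mpr hD⟩
    rw [if_pos hd, h]
    norm_num
  · rw [if_pos h, h]
    split_ifs <;> norm_num
  · rw [h]
    split_ifs <;> norm_num

/-- many residues -/
theorem many_res {D : ℤ} (hD : D ≠ 0) (P : Finset ℕ) (hP : ∀ p ∈ P, p.Prime)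
    (h : |∑ p ∈ P, (jacobiSym D p : ℝ)| ≤ (P.card : ℝ) / 4)
    (hlog : 8 * Real.log |(D : ℝ)| ≤ P.card) :
    (P.card : ℝ) / 4 ≤ ((P.filter (fun p => jacobiSym D p = 1)).card : ℝ) := by
  have h1 : ∑ p ∈ P, (jacobiSym D p : ℝ) ≤ ∑ p ∈ P, (2 * (if jacobiSym D p = 1 then (1 : ℝ) else 0) - 1 +
      (if p ∈ D.natAbs.primeFactors then 1 else 0)) :=
    Finset.sum_le_sum fun p hp => js_cases (hP p hp) D hD
  rw [Finset.sum_add_distrib, Finset.sum_sub_distrib, ← Finset.mul_sum, ← Finset.sum_filter,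
    ← Finset.sum_filter, sum_const, sum_const, sum_const, nsmul_eq_mul, nsmul_eq_mul, nsmul_eq_mul,
    mul_one, mul_one, mul_one] at h1
  have h2 : ((P.filter (fun p => p ∈ D.natAbs.primeFactors)).card : ℝ) ≤ (P.card : ℝ) / 4 := by
    have h3 : (P.filter (fun p => p ∈ D.natAbs.primeFactors)).card ≤ D.natAbs.primeFactors.card := by
      apply card_le_card
      intro p hp
      exact (mem_filter.mp hp).2
    have h4 := card_primeFactors_le D.natAbs (Int.natAbs_ne_zero.mpr hD)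
    have h5 : (D.natAbs : ℝ) = |(D : ℝ)| := by rw [Nat.cast_natAbs, Int.cast_abs]
    rw [h5] at h4
    have h6 : ((P.filter (fun p => p ∈ D.natAbs.primeFactors)).card : ℝ) ≤
      D.natAbs.primeFactors.card := by exact_mod_cast h3
    linarith
  have h7 := (abs_le.mp h).1
  linarith

/-- lower bound for a quadratic polynomial -/
theorem quad_lower (a b c : ℤ) (ha : a ≠ 0) (t : ℤ) (ht : 2 * (|(b : ℝ)| + |(c : ℝ)|) + 1 ≤ |(t : ℝ)|) :
    |(t : ℝ)| ^ 2 ≤ 2 * |((a * t ^ 2 + b * t + c : ℤ) : ℝ)| := by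
  have ha1 : (1 : ℝ) ≤ |(a : ℝ)| := by exact_mod_cast Int.one_le_abs ha
  have hb := abs_nonneg (b : ℝ)
  have hc := abs_nonneg (c : ℝ)
  have ht1 : 1 ≤ |(t : ℝ)| := by linarith
  have h1 : |(a : ℝ) * t ^ 2| ≤ |((a * t ^ 2 + b * t + c : ℤ) : ℝ)| + |(b : ℝ) * t + c| := by
    have e : (a : ℝ) * t ^ 2 = ((a * t ^ 2 + b * t + c : ℤ) : ℝ) - ((b : ℝ) * t + c) := by
      push_cast; ring
    rw [e]
    exact abs_sub _ _
  have h2 : |(b : ℝ) * t + c| ≤ (|(b : ℝ)| + |(c : ℝ)|) * |(t : ℝ)| := by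
    calc |(b : ℝ) * t + c| ≤ |(b : ℝ) * t| + |(c : ℝ)| := abs_add_le _ _
      _ = |(b : ℝ)| * |(t : ℝ)| + |(c : ℝ)| := by rw [abs_mul]
      _ ≤ _ := by nlinarith
  rw [abs_mul, abs_pow] at h1
  nlinarith

/-- upper bound for a quadratic polynomial -/
theorem quad_upper (a b c : ℤ) (t : ℤ) (ht : 1 ≤ |(t : ℝ)|) :
    |((a * t ^ 2 + b * t + c : ℤ) : ℝ)| ≤ (|(a : ℝ)| + |(b : ℝ)| + |(c : ℝ)|) * |(t : ℝ)| ^ 2 := by
  have hb := abs_nonneg (b : ℝ)
  have hc := abs_nonneg (c : ℝ)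
  have ha := abs_nonneg (a : ℝ)
  calc |((a * t ^ 2 + b * t + c : ℤ) : ℝ)| = |(a : ℝ) * t ^ 2 + b * t + c| := by push_cast; rfl
    _ ≤ |(a : ℝ) * t ^ 2 + b * t| + |(c : ℝ)| := abs_add_le _ _
    _ ≤ |(a : ℝ) * t ^ 2| + |(b : ℝ) * t| + |(c : ℝ)| := by gcongr; exact abs_add_le _ _
    _ = |(a : ℝ)| * |(t : ℝ)| ^ 2 + |(b : ℝ)| * |(t : ℝ)| + |(c : ℝ)| := by
        rw [abs_mul, abs_mul, abs_pow]
    _ ≤ |(a : ℝ)| * |(t : ℝ)| ^ 2 + |(b : ℝ)| * |(t : ℝ)| ^ 2 + |(c : ℝ)| * |(t : ℝ)| ^ 2 := by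
        have h1 : |(t : ℝ)| ≤ |(t : ℝ)| ^ 2 := by nlinarith
        have h2 : 1 ≤ |(t : ℝ)| ^ 2 := by nlinarith
        have h3 : |(c : ℝ)| * 1 ≤ |(c : ℝ)| * |(t : ℝ)| ^ 2 := by gcongr
        have h4 : |(b : ℝ)| * |(t : ℝ)| ≤ |(b : ℝ)| * |(t : ℝ)| ^ 2 := by gcongr
        linarith
    _ = _ := by ring

/-- facts about the length of the range of primes -/
theorem y_facts_t {l r : ℕ} (hl : 1 ≤ l) (hr : 1 ≤ r) {N H y : ℝ} (hH : 1 ≤ H) (hHN : H ≤ N)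
    (hy0 : 0 < y) (hy : y ^ (l + r) = H * N) (hy3 : y ^ (3 * r) ≤ H) :
    1 ≤ y ∧ y ≤ N ∧ N ^ (1 / ((l : ℝ) + r)) ≤ y ∧
      y ^ l / N = H / y ^ r ∧ y ^ (2 * r) ≤ H / y ^ r := by
  have hN : 1 ≤ N := hH.trans hHN
  have hN0 : 0 < N := by linarith
  have hy1 : 1 ≤ y := by
    by_contra h
    push Not at h
    have h1 : y ^ (l + r) < 1 := pow_lt_one₀ hy0.le h (by omega)
    rw [hy] at h1
    nlinarith
  have hyr : 0 < y ^ r := by positivity
  refine ⟨hy1, ?_, ?_, ?_, ?_⟩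
  · by_contra h
    push Not at h
    have h1 : y ^ 2 ≤ y ^ (l + r) := pow_le_pow_right₀ hy1 (by omega)
    rw [hy] at h1
    nlinarith
  · have h1 : (N ^ (1 / ((l : ℝ) + r))) ^ (l + r) ≤ y ^ (l + r) := by
      rw [hy, ← Real.rpow_natCast, ← Real.rpow_mul hN0.le]
      have e : 1 / ((l : ℝ) + r) * ((l + r : ℕ) : ℝ) = 1 := by
        have : (l : ℝ) + r ≠ 0 := by
          have : (1 : ℝ) ≤ l := by exact_mod_cast hl
          positivity
        push_cast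
        field_simp
      rw [e, Real.rpow_one]
      nlinarith
    exact (pow_le_pow_iff_left₀ (by positivity) hy0.le (by omega)).mp h1
  · rw [div_eq_div_iff (by positivity) (by positivity), ← pow_add, hy]
  · rw [le_div_iff₀ hyr, ← pow_add]
    have e : 2 * r + r = 3 * r := by ring
    rw [e]; exact hy3

end Pool.Agent.Y159.TQ
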