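import Pool.Agent.TH869.EVF.Dy

set_option autoImplicit false

/-! Statements for the project TQ (torsion of class groups in thin quadratic families). -/

namespace Pool.Agent.Y159.TQ

open Polynomial Finset Pool.Agent.TH869.EVF
open scoped Classical

/-- TQ-REP: the number of representations by `X ^ 2 - m Y ^ 2` -/
def TaskRep : Prop :=
  ∀ m : ℤ, m ≠ 0 → ∀ ε : ℝ, 0 < ε → ∃ C : ℝ, 0 < C ∧ ∀ (R : ℤ) (B : ℝ), R ≠ 0 → 1 ≤ B →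
    ∀ A : Finset (ℤ × ℤ),
      (∀ x ∈ A, x.1 ^ 2 - m * x.2 ^ 2 = R ∧ |(x.1 : ℝ)| ≤ B ∧ |(x.2 : ℝ)| ≤ B) →
      (A.card : ℝ) ≤ C * (|(R : ℝ)| * B) ^ ε

/-- TQ-SUP: few values of `f` have many more nonresidues than residues among the primes in
`(z/2, z]` -/
def TaskSup : Prop :=
  ∀ f : ℤ[X], (∀ (c : ℚ) (g : ℚ[X]), f.map (Int.castRingHom ℚ) ≠ C c * g ^ 2) →
    ∀ m : ℕ, 1 ≤ m → ∀ δ : ℝ, 0 < δ → δ ≤ 1 / 2 → ∃ C Y0 : ℝ, 0 < C ∧ 1 ≤ Y0 ∧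
      ∀ y : ℝ, Y0 ≤ y → ∃ z : ℕ, (z : ℝ) ≤ y ∧ y ^ (1 - δ) ≤ (Qz z).card ∧
        ∀ (N : ℤ) (H : ℝ), 1 ≤ H → ∀ S : Finset ℤ, (∀ t ∈ S, (N : ℝ) ≤ t ∧ (t : ℝ) ≤ N + H) →
          ((S.filter (fun t => ((Qz z).card : ℝ) / 4 <
            |∑ p ∈ Qz z, (jacobiSym (f.eval t) p : ℝ)|)).card : ℝ) ≤
            C * (H * y ^ (-((1 - δ) * m)) + y ^ (2 * m))

end Pool.Agent.Y159.TQ
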