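import Pool.Agent.Y159.TQ.Coll
import Pool.Agent.Y159.QS.Single
import Pool.Agent.TH869.EVF.Dy

set_option autoImplicit false

/-! The sum of the numbers of collisions over a thin family. -/

namespace Pool.Agent.Y159.TQ

open Finset Pool.Agent.TH869.EVF Pool.Agent.Y159.QS
open scoped Classical

theorem sum_ECt (hrep : TaskRep) (a b c : ℤ) (ha : a ≠ 0) (hΔ : b ^ 2 - 4 * a * c ≠ 0) (A : ℝ)
    (hA : 1 ≤ A) (l : ℕ) (hl : 1 ≤ l) (ε : ℝ) (hε : 0 < ε) : ∃ C : ℝ, 0 < C ∧ ∀ N : ℝ, 1 ≤ N →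
    ∀ z : ℕ, 2 * ((b ^ 2 - 4 * a * c).natAbs + 3) ≤ z → ∀ S : Finset ℤ,
    (∀ t ∈ S, N ^ 2 ≤ A * |((a * t ^ 2 + b * t + c : ℤ) : ℝ)| ∧ 1 + |(t : ℝ)| ≤ A * N) →
    ∑ t ∈ S, (EC l ((150 * (z : ℝ)) ^ l) (a * t ^ 2 + b * t + c) (Qz z) : ℝ) ≤
      C * (Qz z).card ^ 2 * ((z : ℝ) ^ l) ^ ε * ((z : ℝ) ^ l / N) := by
  obtain ⟨C1, hC10, hC1⟩ := coll_t hrep a b c ha hΔ A hA ε hε
  refine ⟨C1 * 150 ^ l * (150 ^ l) ^ ε, by positivity, ?_⟩
  intro N hN z hz S hS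
  have hN0 : 0 < N := by linarith
  have hz1 : 1 ≤ z := by omega
  have hzr : (1 : ℝ) ≤ z := by exact_mod_cast hz1
  set Z : ℝ := (150 * (z : ℝ)) ^ l with hZ
  have hZ1 : 1 ≤ Z := one_le_pow₀ (by linarith)
  have hswap : ∑ t ∈ S, (EC l Z (a * t ^ 2 + b * t + c) (Qz z) : ℝ) ≤
      ∑ x ∈ Qz z ×ˢ Qz z, ((S.filter (fun t => Coll l Z (a * t ^ 2 + b * t + c) x.1 x.2)).card : ℝ) := by
    have e1 : ∀ t ∈ S, (EC l Z (a * t ^ 2 + b * t + c) (Qz z) : ℝ) ≤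
        ∑ x ∈ Qz z ×ˢ Qz z, if Coll l Z (a * t ^ 2 + b * t + c) x.1 x.2 then (1 : ℝ) else 0 := by
      intro t _
      have e2 : EC l Z (a * t ^ 2 + b * t + c) (Qz z) ≤
          ((Qz z ×ˢ Qz z).filter (fun x => Coll l Z (a * t ^ 2 + b * t + c) x.1 x.2)).card := by
        unfold EC
        apply card_le_card
        intro x hx
        rw [mem_filter] at hx ⊢
        exact ⟨hx.1, hx.2.2⟩
      rw [← Finset.sum_filter, sum_const, nsmul_eq_mul, mul_one]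
      exact_mod_cast e2
    refine (Finset.sum_le_sum e1).trans (le_of_eq ?_)
    rw [Finset.sum_comm]
    refine Finset.sum_congr rfl fun x _ => ?_
    rw [← Finset.sum_filter, sum_const, nsmul_eq_mul, mul_one]
  refine hswap.trans ?_
  have hone : ∀ x ∈ Qz z ×ˢ Qz z,
      ((S.filter (fun t => Coll l Z (a * t ^ 2 + b * t + c) x.1 x.2)).card : ℝ) ≤
      C1 * (Z / N) * Z ^ ε := by
    intro x hx
    rw [mem_product] at hx
    obtain ⟨hp1, hp2, hp3⟩ := mem_Qz hx.1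
    obtain ⟨hq1, hq2, hq3⟩ := mem_Qz hx.2
    have hpz : z ≤ 2 * x.1 := by
      have : (z : ℝ) ≤ 2 * (x.1 : ℝ) := by linarith
      exact_mod_cast this
    refine hC1 l hl N Z hN hZ1 x.1 x.2 hp1 (by omega) (by omega) ?_ S hS
    have hp3' : (x.1 : ℝ) ≤ z := by exact_mod_cast hp3
    have hq3' : (x.2 : ℝ) ≤ z := by exact_mod_cast hq3
    push_cast
    rw [hZ, ← pow_mul, mul_comm l 2, pow_mul]
    apply pow_le_pow_left₀ (by positivity)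
    nlinarith [mul_le_mul hp3' hq3' (Nat.cast_nonneg x.2) (Nat.cast_nonneg z)]
  calc ∑ x ∈ Qz z ×ˢ Qz z, ((S.filter (fun t => Coll l Z (a * t ^ 2 + b * t + c) x.1 x.2)).card : ℝ)
      ≤ ∑ x ∈ Qz z ×ˢ Qz z, C1 * (Z / N) * Z ^ ε := Finset.sum_le_sum hone
    _ = ((Qz z).card : ℝ) ^ 2 * (C1 * (Z / N) * Z ^ ε) := by
        rw [sum_const, nsmul_eq_mul, card_product]; push_cast; ring
    _ = _ := by
        have e1 : Z = 150 ^ l * (z : ℝ) ^ l := by rw [hZ, mul_pow]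
        have e2 : Z ^ ε = (150 ^ l) ^ ε * ((z : ℝ) ^ l) ^ ε := by
          rw [e1, Real.mul_rpow (by positivity) (by positivity)]
        rw [e2, e1]
        ring

end Pool.Agent.Y159.TQ
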